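import Pool.Agent.Helper84.OX.St

/-! Project OX, module ETA: a stacking which refines the heights. -/

set_option autoImplicit false

namespace Pool.Agent.Helper21.OX

open Pool.Agent.Helper96.UT hiding StTOP TopV TopE tht Bd VC EC
open Pool.Agent.Helper96.GU Pool.Agent.Helper84.OX

section

variable {α : Type} {Z : Cyc α} {X : Type} [LinearOrder X] [MulAction (FreeGroup α) X] {x₀ : X}

private theorem act_lt_iff (h : Hgt Z X x₀) (x y : X) (g : FreeGroup α) : act x g < act y g ↔ x < y := by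
  constructor
  · intro hlt
    by_contra hcon
    rcases (not_lt.1 hcon).lt_or_eq with h1 | h1
    · exact absurd (h.lt h1 g) (not_lt.2 hlt.le)
    · rw [h1] at hlt
      exact lt_irrefl _ hlt
  · intro hlt
    exact h.lt hlt g

private theorem act_eq_iff (x y : X) (g : FreeGroup α) : act x g = act y g ↔ x = y :=
  ⟨fun h => act_inj h, fun h => by rw [h]⟩

/-- the refined order of the positions -/
private def prec (Z : Cyc α) (x₀ : X) (η₀ : Stk Z) (i j : ℤ) : Prop :=
  act x₀ (pre Z.c i) < act x₀ (pre Z.c j) ∨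
    (act x₀ (pre Z.c i) = act x₀ (pre Z.c j) ∧ η₀.η i < η₀.η j)

private theorem prec_trans {η₀ : Stk Z} {i j k : ℤ} (h1 : prec Z x₀ η₀ i j) (h2 : prec Z x₀ η₀ j k) :
    prec Z x₀ η₀ i k := by
  rcases h1 with h1 | ⟨h1, h1'⟩
  · rcases h2 with h2 | ⟨h2, _⟩
    · exact Or.inl (h1.trans h2)
    · left; rw [← h2]; exact h1
  · rcases h2 with h2 | ⟨h2, h2'⟩
    · left; rw [h1]; exact h2
    · right; exact ⟨h1.trans h2, h1'.trans h2'⟩

private theorem prec_irrefl {η₀ : Stk Z} (i : ℤ) : ¬ prec Z x₀ η₀ i i := by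
  rintro (h | ⟨_, h⟩)
  · exact lt_irrefl _ h
  · exact lt_irrefl _ h

private theorem prec_total {η₀ : Stk Z} (i j : ℤ) (h1 : ¬ prec Z x₀ η₀ i j) (h2 : ¬ prec Z x₀ η₀ j i) :
    act x₀ (pre Z.c i) = act x₀ (pre Z.c j) ∧ η₀.η i = η₀.η j := by
  unfold prec at h1 h2
  rw [not_or, not_and] at h1 h2
  have e : act x₀ (pre Z.c i) = act x₀ (pre Z.c j) := le_antisymm (not_lt.1 h2.1) (not_lt.1 h1.1)
  exact ⟨e, le_antisymm (not_lt.1 (h2.2 e.symm)) (not_lt.1 (h1.2 e))⟩

private theorem prec_left (h : Hgt Z X x₀) {η₀ : Stk Z} (i q j : ℤ) :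
    prec Z x₀ η₀ (i + q * Z.n) j ↔ prec Z x₀ η₀ i j := by
  unfold prec
  rw [act_pre_per h.fix, eta_per']

private theorem prec_right (h : Hgt Z X x₀) {η₀ : Stk Z} (i q j : ℤ) :
    prec Z x₀ η₀ j (i + q * Z.n) ↔ prec Z x₀ η₀ j i := by
  unfold prec
  rw [act_pre_per h.fix, eta_per']

open Classical in
/-- the new heights -/
private noncomputable def ht (Z : Cyc α) (x₀ : X) (η₀ : Stk Z) (i : ℤ) : ℤ :=
  (((Finset.range Z.n).filter fun j : ℕ => prec Z x₀ η₀ (j : ℤ) i).card : ℤ)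

private theorem ht_lt_iff (h : Hgt Z X x₀) {η₀ : Stk Z} (i j : ℤ) :
    ht Z x₀ η₀ i < ht Z x₀ η₀ j ↔ prec Z x₀ η₀ i j := by
  classical
  constructor
  · intro hlt
    by_contra hcon
    have hle : ht Z x₀ η₀ j ≤ ht Z x₀ η₀ i := by
      unfold ht
      apply Int.ofNat_le.2
      apply Finset.card_le_card
      intro k hk
      rw [Finset.mem_filter] at hk ⊢
      refine ⟨hk.1, ?_⟩
      by_cases h2 : prec Z x₀ η₀ j i
      · exact prec_trans hk.2 h2
      · obtain ⟨e1, e2⟩ := prec_total i j hcon h2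
        have := hk.2
        unfold prec at this ⊢
        rw [e1, e2]
        exact this
    exact absurd hlt (not_lt.2 hle)
  · intro hp
    unfold ht
    apply Int.ofNat_lt.2
    apply Finset.card_lt_card
    rw [Finset.ssubset_iff_of_subset]
    · obtain ⟨a, q, ha, hi⟩ := mod_nat Z i
      refine ⟨a, ?_, ?_⟩
      · rw [Finset.mem_filter]
        refine ⟨Finset.mem_range.2 ha, ?_⟩
        rw [hi, prec_left h] at hp
        exact hp
      · rw [Finset.mem_filter]
        rintro ⟨_, h2⟩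
        rw [hi, prec_right h] at h2
        exact prec_irrefl _ h2
    · intro k hk
      rw [Finset.mem_filter] at hk ⊢
      exact ⟨hk.1, prec_trans hk.2 hp⟩

end

theorem hETA : StETA := by
  classical
  intro α Z X _ _ x₀ h
  obtain ⟨η₀⟩ := aSTK α Z
  refine ⟨{ η := ht Z x₀ η₀, per := ?_, inj := ?_, mono := ?_, monobar := ?_ }, ?_⟩
  · intro i
    unfold ht
    have e : ∀ j : ℕ, prec Z x₀ η₀ (j : ℤ) (i + Z.n) ↔ prec Z x₀ η₀ (j : ℤ) i := by
      intro j
      have := prec_right h (η₀ := η₀) i 1 (j : ℤ)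
      rwa [one_mul] at this
    simp only [e]
  · intro i j hij
    have h1 : ¬ prec Z x₀ η₀ i j := fun hp => by
      have := (ht_lt_iff h i j).2 hp
      omega
    have h2 : ¬ prec Z x₀ η₀ j i := fun hp => by
      have := (ht_lt_iff h j i).2 hp
      omega
    exact η₀.inj i j (prec_total i j h1 h2).2
  · intro i j hc
    rw [ht_lt_iff h, ht_lt_iff h]
    unfold prec
    rw [← act_pre_succ Z.c x₀ i, ← act_pre_succ Z.c x₀ j, hc, act_lt_iff h, act_eq_iff, η₀.mono i j hc]
  · intro i j hc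
    rw [ht_lt_iff h, ht_lt_iff h]
    unfold prec
    have e1 : act x₀ (pre Z.c (i + 1)) = act (act x₀ (pre Z.c i)) (lt (Z.c j))⁻¹ := by
      rw [← act_pre_succ, hc, lt_bar]
    have e2 : act x₀ (pre Z.c j) = act (act x₀ (pre Z.c (j + 1))) (lt (Z.c j))⁻¹ :=
      (act_inv_eq (act_pre_succ Z.c x₀ j)).symm
    rw [e1, e2, act_lt_iff h, act_eq_iff, η₀.monobar i j hc]
  · intro i j hlt
    exact (ht_lt_iff h i j).2 (Or.inl hlt)

end Pool.Agent.Helper21.OX
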